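import Pool.Agent.H77.Q.Defs
import Pool.Agent.H17.P3.Glue
import Pool.Agent.H26.P3.End
import Pool.Agent.H62.Ind.P3

set_option autoImplicit false

/-!
Glue for the full question (MP_a46c6f_co): a rooted code with sides is the code of a tree.
-/

namespace Pool.Agent.H7.Q

open Pool.Agent.H98.Code Pool.Agent.H17.P3 Pool.Agent.H17.TR Pool.Agent.H77.Q

/-- row (B): a rooted code with sides has an inverse matrix with midpoints of closed pairs and bad
points of paths `0110` -/
def RowB : Prop :=
  ∀ (X : Type) [Fintype X] [DecidableEq X] (B : Submodule (ZMod 2) (X → K)) (e : X)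
    (S : (X → K) → Finset X → Prop) (H : X → X → ZMod 2), IsCode B → IsMat B H → RSides B e S →
    ∃ M : X → X → ZMod 2, (∀ x y, M x y = M y x) ∧ (∀ x, M e x = 0) ∧
      (∀ u, u ≠ e → ∀ v, (∑ w, H u w * (M u v + M w v)) = if u = v then 1 else 0) ∧
      Pairs M ∧ P4Split M

/-- a rooted code with sides is the code of a tree -/
theorem isTree_of_rsides (hB : RowB) {X : Type} [Fintype X] [DecidableEq X]
    {B : Submodule (ZMod 2) (X → K)} {e : X} {S : (X → K) → Finset X → Prop} (hc : IsCode B)
    (hz : NoZ B) (hS : RSides B e S) : (graph B).IsTree := by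
  obtain ⟨H, hs, hm⟩ := exists_matrix hc hz
  have hH : IsMat B H := ⟨hs, hm⟩
  have hH' : Pool.Agent.H32.AA.IsMat B H := ⟨hs, hm⟩
  have heq : graph B = GrH H := by
    ext v w
    rw [Pool.Agent.H32.AA.adj_iff hH', hH.adj]
  rw [heq]
  obtain ⟨M, hs, he, hinv, hp, h4⟩ := hB X B e S H hc hH hS
  exact Pool.Agent.H26.P3.tree_end X e H M hH.sym hs he hinv hp
    (Pool.Agent.H62.Ind.p3 X M hs hp h4)

end Pool.Agent.H7.Q
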