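import Pool.Agent.H7.Q.Glue
import Pool.Agent.H16.FQ.Adapt
import Pool.Agent.H73.P4.RS2
import Pool.Agent.H55.Q.KD
import Pool.Agent.H95.End.Leaf
import Pool.Agent.H62.Q1.Asm

set_option autoImplicit false

/-!
Glue for the full question (MP_a46c6f_co): everything from row (B).
-/

namespace Pool.Agent.H7.Q

open Finset Pool.Agent.H98.Code Pool.Agent.H26.TR Pool.Agent.H45.TR Pool.Agent.H77.Q
open Pool.Agent.H5.Goddyn Pool.Agent.H98.TC Pool.Agent.H64.Pent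

theorem k_add_self' : ∀ a : K, a + a = 0 := by decide

/-- a nonzero `z`-free word with at most one zero splits -/
theorem hwc_of {V : Type} [Fintype V] [DecidableEq V] {L : Submodule (ZMod 2) (V → K)}
    {S : (V → K) → Finset V → Prop} (hS : Pool.Agent.H31.Q.Sides L S) :
    ∀ u ∈ L, u ≠ 0 → ZFree u → (∃ e : V, ∀ v, v ≠ e → u v ≠ 0) → ∃ g, Splits L u g := by
  rintro u hu h0 hz ⟨e, he⟩
  obtain ⟨Y, hY⟩ := hS.ex u hu
  have aux : ∀ Y, S u Y → e ∉ Y → ∃ g, Splits L u g := by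
    intro Y hY heY
    have : Y = ∅ := by
      rw [Finset.eq_empty_iff_forall_notMem]
      intro v hv
      have hve : v ≠ e := fun h => heY (h ▸ hv)
      exact he v hve ((hS.mem u Y hY).2 v hv)
    rw [this] at hY
    exact hS.wc u hY hz h0
  by_cases heY : e ∈ Y
  · obtain ⟨Y', hY', h1⟩ := hS.compl u Y hY
    exact aux Y' hY' fun h2 => ((h1 e).1 h2).2 heY
  · exact aux Y hY heY

/-- the covered state lemma -/
theorem hcov_of {V : Type} [Fintype V] [DecidableEq V] {L : Submodule (ZMod 2) (V → K)}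
    {S : (V → K) → Finset V → Prop} (hL : IsCode L) (hS : Pool.Agent.H31.Q.Sides L S) :
    ∀ (e : V) (D' : V → K), (∀ v, v ≠ e → (D' v).1 = 1) →
      (∀ v, v ≠ e → ∃ u, KD L D' e u ∧ u v ≠ 0) →
      ∀ u, KD L D' e u → u ≠ 0 → u e = 0 → ∃ g, Splits L u g := by
  intro e D' hl hf
  refine Pool.Agent.H55.Q.split_of_sides hL.iso hl hf (fun u Y => S u Y ∧ e ∉ Y) ?_ ?_ ?_ ?_ ?_
  · exact fun u Y h => h.2
  · exact fun u Y h => (hS.mem u Y h.1).2
  · intro u hu _ hue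
    obtain ⟨Y, hY⟩ := hS.ex u hu
    by_cases heY : e ∈ Y
    · obtain ⟨Y', hY', h1⟩ := hS.compl u Y hY
      exact ⟨Y', hY', fun h2 => ((h1 e).1 h2).2 heY⟩
    · exact ⟨Y, hY, heY⟩
  · rintro u Y ⟨hY, heY⟩ _ k hk hle
    obtain ⟨k', h1, h2, h3, h4, ⟨Y', h5, h6⟩, _⟩ := hS.part u Y hY k hk hle
    exact ⟨k', h1, h2, h3, h4, fun _ => ⟨Y', h5, h6, fun h => heY (h5 h)⟩⟩
  · intro u _ h0 hz _ hY
    exact hS.wc u hY.1 hz h0

/-- the two forms of the sides -/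
theorem sides95 {V : Type} {L : Submodule (ZMod 2) (V → K)} {S : (V → K) → Finset V → Prop}
    (hS : Pool.Agent.H31.Q.Sides L S) : Pool.Agent.H95.End.Sides L S := by
  refine ⟨fun u Y h => (hS.mem u Y h).1, fun u Y h => (hS.mem u Y h).2, hS.ex, ?_, ?_⟩
  · intro u Y h
    obtain ⟨Y', h1, h2⟩ := hS.compl u Y h
    exact ⟨Y', h1, fun v hv => ⟨fun h3 => ((h2 v).1 h3).2, fun h3 => (h2 v).2 ⟨hv, h3⟩⟩⟩
  · intro u Y h k hk hle
    obtain ⟨k', _, h2, h3, h4, ⟨Y', h5, h6⟩, Y'', h7, h8⟩ := hS.part u Y h k hk hle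
    exact ⟨k', Y', Y'', h6, by rw [add_comm]; exact h8, h5, h7, h2, h3, h4⟩

/-- the code statement of the assembly from row (B) -/
theorem endSide_of (hB : RowB) : Pool.Agent.H62.Q1.EndSide := by
  intro V _ _ L S hL hz1 hz hS h5 _
  have key : ∃ g a b : V, ∃ c : V → K, a ≠ b ∧ a ≠ g ∧ b ≠ g ∧ S c ∅ ∧ c g = z ∧ (c a).1 = 1 ∧
      (c b).1 = 1 ∧ ∀ v, v ≠ g → v ≠ a → v ≠ b → c v = 0 := by
    refine Pool.Agent.H16.FQ.adapt hL hz1 hz (by omega) (hwc_of hS) (hcov_of hL hS) ?_ ?_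
    · intro e D P M0 t h _ _ hP hM0 _ ht hc hn
      have hQ : P.erase M0 ⊆ P := Finset.erase_subset _ _
      have heW : ∀ M ∈ P.erase M0, e ∉ M := fun M hM => (hP.mem M (hQ hM)).2.1
      exact isTree_of_rsides hB hc hn
        (Pool.Agent.H73.P4.rsides' hL (Pool.Agent.H16.FQ.toParts hP) hQ h.letter ht heW hS)
    · intro e D P M0 h _ _ hP hM0 hmax _ hgz y hy leaf hr
      exact Pool.Agent.H95.End.own_free (sides95 hS) hL.iso hz1 h.noz h.letter hP hM0 hmax hgz y hy leaf hr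
  obtain ⟨g, a, b, c, hab, hag, hbg, hc, hg, ha, hb, h0⟩ := key
  exact ⟨c, g, a, b, hc, hg, ha, fun i h1 h2 h3 => h0 i h1 h2 h3⟩

/-- **Goddyn's question for permutation graphs** from row (B) -/
theorem main_of (hB : RowB) {V : Type*} [Finite V] (G : SimpleGraph V) (M C₁ C₂ : G.Subgraph)
    (h : IsPermutationGraph G M C₁ C₂) (hcrit : IsCriticalContraPair G (wt M)) :
    IsPetersenPair G M :=
  Pool.Agent.H62.Q1.main_of (endSide_of hB) G M C₁ C₂ h hcrit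

end Pool.Agent.H7.Q
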