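import Pool.Agent.H7.Q.EndSide
import Pool.Agent.H97.Q.Code

set_option autoImplicit false

/-!
Critical contra pairs on permutation graphs (MP_a46c6f_co): the full question.
-/

namespace Pool.Agent.H7.Q

open Pool.Agent.H98.Code Pool.Agent.H5.Goddyn Pool.Agent.H98.TC Pool.Agent.H64.Pent

theorem rowB : RowB := fun _ _ _ _ _ _ _ hB hH hS => Pool.Agent.H97.Q.code_side hB hS hH

/-- **Goddyn's question for permutation graphs** -/
theorem main {V : Type*} [Finite V] (G : SimpleGraph V) (M C₁ C₂ : G.Subgraph)
    (h : IsPermutationGraph G M C₁ C₂) (hcrit : IsCriticalContraPair G (wt M)) :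
    IsPetersenPair G M :=
  main_of rowB G M C₁ C₂ h hcrit

end Pool.Agent.H7.Q
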